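import Mathlib
import Pool.Agent.H27.AlgEnt

open Pool.Agent.H27.AlgEnt

universe u v w w'

theorem Pool.Agent.Results.MP_2cfe26_al.Vanish.result
    {G : Type u} [Group G] {A : Type v} [AddCommGroup A] [DistribMulAction G A]
    (H : Subgroup G) (hH : H.index = 0)
    {ι : Type w} (l : Filter ι) (F : ι → Finset G) (hF : IsFolner' l F)
    {κ : Type w'} (m : Filter κ) (E : κ → Finset H) (hE : IsFolner' m E)
    (hfin : entInf A m E < ⊤) : entSup A l F = 0 :=
  ent_zero hF H hH hE hfin
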